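import Mathlib
import Pool.Agent.H27.G.R_seed8.H705R2.MLogF

set_option autoImplicit false

open Finset ArithmeticFunction

namespace Pool.Agent.H381R2.HR

namespace A1aux

/-- Dirichlet hyperbola method -/
theorem hyperbola (f g : ArithmeticFunction ℝ) (N A B : ℕ) (h1 : A * B ≤ N)
    (h2 : N < (A + 1) * (B + 1)) :
    ∑ n ∈ Ioc 0 N, (f * g) n = ∑ a ∈ Ioc 0 A, f a * ∑ b ∈ Ioc 0 (N / a), g b +
      ∑ b ∈ Ioc 0 B, g b * ∑ a ∈ Ioc 0 (N / b), f a -
      (∑ a ∈ Ioc 0 A, f a) * ∑ b ∈ Ioc 0 B, g b := by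
  classical
  rw [sum_Ioc_mul_eq_sum_prod_filter]
  set P := (Ioc 0 N ×ˢ Ioc 0 N).filter (fun x => x.1 * x.2 ≤ N) with hP
  set F : ℕ × ℕ → ℝ := fun x => f x.1 * g x.2 with hF
  have hU : P = P.filter (fun x => x.1 ≤ A) ∪ P.filter (fun x => x.2 ≤ B) := by
    rw [← filter_or]
    symm
    rw [filter_eq_self]
    intro x hx
    rw [hP, mem_filter] at hx
    by_contra hc
    push Not at hc
    have := Nat.mul_le_mul (Nat.succ_le_of_lt hc.1) (Nat.succ_le_of_lt hc.2)
    simp only [Nat.succ_eq_add_one] at this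
    omega
  have hI : P.filter (fun x => x.1 ≤ A) ∩ P.filter (fun x => x.2 ≤ B) = Ioc 0 A ×ˢ Ioc 0 B := by
    ext ⟨a, b⟩
    simp only [hP, mem_inter, mem_filter, mem_product, mem_Ioc]
    constructor
    · rintro ⟨⟨⟨⟨⟨ha, _⟩, ⟨hb, _⟩⟩, _⟩, haA⟩, ⟨_, hbB⟩⟩
      exact ⟨⟨ha, haA⟩, ⟨hb, hbB⟩⟩
    · rintro ⟨⟨ha, haA⟩, ⟨hb, hbB⟩⟩
      have h3 : a * b ≤ N := (Nat.mul_le_mul haA hbB).trans h1
      have h4 : a ≤ a * b := Nat.le_mul_of_pos_right a hb
      have h5 : b ≤ a * b := Nat.le_mul_of_pos_left b ha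
      exact ⟨⟨⟨⟨⟨ha, h4.trans h3⟩, ⟨hb, h5.trans h3⟩⟩, h3⟩, haA⟩,
        ⟨⟨⟨⟨ha, h4.trans h3⟩, ⟨hb, h5.trans h3⟩⟩, h3⟩, hbB⟩⟩
  have e1 : ∑ x ∈ P.filter (fun x => x.1 ≤ A), F x =
      ∑ a ∈ Ioc 0 A, f a * ∑ b ∈ Ioc 0 (N / a), g b := by
    have : P.filter (fun x => x.1 ≤ A) = ((Ioc 0 A).sigma (fun a => Ioc 0 (N / a))).map
        (Equiv.sigmaEquivProd ℕ ℕ).toEmbedding := by
      ext ⟨a, b⟩
      simp only [hP, mem_filter, mem_product, mem_Ioc, mem_map_equiv, mem_sigma,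
        Equiv.sigmaEquivProd_symm_apply]
      constructor
      · rintro ⟨⟨⟨⟨ha, _⟩, ⟨hb, _⟩⟩, h⟩, haA⟩
        refine ⟨⟨ha, haA⟩, hb, ?_⟩
        rw [Nat.le_div_iff_mul_le ha]
        linarith [mul_comm a b]
      · rintro ⟨⟨ha, haA⟩, hb, h⟩
        rw [Nat.le_div_iff_mul_le ha] at h
        have h3 : a * b ≤ N := by linarith [mul_comm a b]
        have h4 : a ≤ a * b := Nat.le_mul_of_pos_right a hb
        have h5 : b ≤ a * b := Nat.le_mul_of_pos_left b ha
        exact ⟨⟨⟨⟨ha, h4.trans h3⟩, ⟨hb, h5.trans h3⟩⟩, h3⟩, haA⟩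
    rw [this, sum_map, sum_sigma]
    refine sum_congr rfl fun a _ => ?_
    rw [mul_sum]
    rfl
  have e2 : ∑ x ∈ P.filter (fun x => x.2 ≤ B), F x =
      ∑ b ∈ Ioc 0 B, g b * ∑ a ∈ Ioc 0 (N / b), f a := by
    have : P.filter (fun x => x.2 ≤ B) = ((Ioc 0 B).sigma (fun b => Ioc 0 (N / b))).map
        ((Equiv.sigmaEquivProd ℕ ℕ).trans (Equiv.prodComm ℕ ℕ)).toEmbedding := by
      ext ⟨a, b⟩
      simp only [hP, mem_filter, mem_product, mem_Ioc, mem_map_equiv, mem_sigma,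
        Equiv.symm_trans_apply, Equiv.prodComm_symm, Equiv.prodComm_apply, Prod.swap_prod_mk,
        Equiv.sigmaEquivProd_symm_apply]
      constructor
      · rintro ⟨⟨⟨⟨ha, _⟩, ⟨hb, _⟩⟩, h⟩, haA⟩
        refine ⟨⟨hb, haA⟩, ha, ?_⟩
        rwa [Nat.le_div_iff_mul_le hb]
      · rintro ⟨⟨hb, haA⟩, ha, h⟩
        rw [Nat.le_div_iff_mul_le hb] at h
        have h4 : a ≤ a * b := Nat.le_mul_of_pos_right a hb
        have h5 : b ≤ a * b := Nat.le_mul_of_pos_left b ha
        exact ⟨⟨⟨⟨ha, h4.trans h⟩, ⟨hb, h5.trans h⟩⟩, h⟩, haA⟩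
    rw [this, sum_map, sum_sigma]
    refine sum_congr rfl fun a _ => ?_
    rw [mul_sum]
    refine sum_congr rfl fun b _ => ?_
    exact mul_comm _ _
  have e3 : ∑ x ∈ Ioc 0 A ×ˢ Ioc 0 B, F x = (∑ a ∈ Ioc 0 A, f a) * ∑ b ∈ Ioc 0 B, g b := by
    rw [sum_product, sum_mul_sum]
  have h3 := sum_union_inter (f := F) (s₁ := P.filter (fun x => x.1 ≤ A))
    (s₂ := P.filter (fun x => x.2 ≤ B))
  rw [← hU, hI, e1, e2, e3] at h3
  linarith

theorem harm (n : ℕ) (hn : 1 ≤ n) :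
    0 ≤ (∑ i ∈ Ioc 0 n, (1 : ℝ) / i) - Real.log n - Real.eulerMascheroniConstant ∧
    (∑ i ∈ Ioc 0 n, (1 : ℝ) / i) - Real.log n - Real.eulerMascheroniConstant ≤ 1 / n := by
  have e : ((harmonic n : ℚ) : ℝ) = ∑ i ∈ Ioc 0 n, (1 : ℝ) / i := by
    rw [harmonic_eq_sum_Icc]
    push_cast
    refine sum_congr ?_ fun i _ => by rw [one_div]
    ext i; simp only [mem_Icc, mem_Ioc]; omega
  have h1 := Real.eulerMascheroniConstant_lt_eulerMascheroniSeq' n
  have h2 := Real.eulerMascheroniSeq_lt_eulerMascheroniConstant n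
  unfold Real.eulerMascheroniSeq' at h1
  unfold Real.eulerMascheroniSeq at h2
  rw [if_neg (by omega)] at h1
  rw [e] at h1 h2
  have hn0 : (0 : ℝ) < n := by exact_mod_cast hn
  have h3 : Real.log (n + 1) - Real.log n ≤ 1 / n := by
    rw [← Real.log_div (by positivity) hn0.ne']
    have := Real.log_le_sub_one_of_pos (x := (n + 1) / n) (by positivity)
    refine this.trans (le_of_eq ?_)
    field_simp
    ring
  constructor <;> linarith

theorem logfact (n : ℕ) (hn : 1 ≤ n) :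
    |∑ i ∈ Ioc 0 n, Real.log i - (n * Real.log n - n)| ≤ 1 + Real.log n := by
  have key : (n : ℝ) * Real.log n - n ≤ ∑ i ∈ Ioc 0 n, Real.log i ∧
      ∑ i ∈ Ioc 0 n, Real.log i ≤ (n : ℝ) * Real.log n - n + 1 + Real.log n := by
    induction n, hn using Nat.le_induction with
    | base => simp
    | succ n hn ih =>
      have hn0 : (0 : ℝ) < n := by exact_mod_cast hn
      rw [sum_Ioc_succ_top (by omega)]
      push_cast
      have h3 : n * (Real.log (n + 1) - Real.log n) ≤ 1 := by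
        rw [← Real.log_div (by positivity) hn0.ne']
        have := Real.log_le_sub_one_of_pos (x := ((n : ℝ) + 1) / n) (by positivity)
        have h4 : ((n : ℝ) + 1) / n - 1 = 1 / n := by field_simp; ring
        rw [h4] at this
        calc (n : ℝ) * Real.log ((n + 1) / n) ≤ n * (1 / n) := by gcongr
          _ = 1 := by field_simp
      have h5 : 1 ≤ ((n : ℝ) + 1) * (Real.log (n + 1) - Real.log n) := by
        rw [← Real.log_div (by positivity) hn0.ne']
        have := Real.one_sub_inv_le_log_of_pos (x := ((n : ℝ) + 1) / n) (by positivity)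
        have h4 : 1 - (((n : ℝ) + 1) / n)⁻¹ = 1 / (n + 1) := by field_simp; ring
        rw [h4] at this
        calc (1 : ℝ) = (n + 1) * (1 / (n + 1)) := by field_simp
          _ ≤ _ := by gcongr
      constructor <;> nlinarith [ih.1, ih.2]
  have : 0 ≤ Real.log n := Real.log_natCast_nonneg n
  rw [abs_le]; constructor <;> linarith [key.1, key.2]

theorem subap (f g : ArithmeticFunction ℝ) (n : ℕ) : (f - g) n = f n - g n := rfl

theorem zsum (N : ℕ) : ∑ n ∈ Ioc 0 N, ((zeta : ArithmeticFunction ℕ) : ArithmeticFunction ℝ) n = N := by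
  have := sum_Ioc_zeta N
  simp_rw [natCoe_apply]
  exact_mod_cast this

theorem dsum (N : ℕ) (hN : 1 ≤ N) :
    |∑ n ∈ Ioc 0 N, (((zeta : ArithmeticFunction ℕ) : ArithmeticFunction ℝ) *
      ((zeta : ArithmeticFunction ℕ) : ArithmeticFunction ℝ)) n -
      (N * Real.log N + (2 * Real.eulerMascheroniConstant - 1) * N)| ≤ 8 * √(N : ℝ) := by
  set s := Nat.sqrt N with hs
  have hs1 : 1 ≤ s := by
    rw [hs, Nat.le_sqrt]; omega
  have h1 : s * s ≤ N := Nat.sqrt_le N
  have h2 : N < (s + 1) * (s + 1) := Nat.lt_succ_sqrt N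
  rw [hyperbola _ _ N s s h1 h2]
  simp_rw [zsum]
  have hz : ∀ a ∈ Ioc 0 s, ((zeta : ArithmeticFunction ℕ) : ArithmeticFunction ℝ) a * ((N / a : ℕ) : ℝ) =
      ((N / a : ℕ) : ℝ) := by
    intro a ha
    rw [mem_Ioc] at ha
    rw [natCoe_apply, zeta_apply, if_neg (by omega)]
    simp
  rw [sum_congr rfl hz]
  have hs0 : (0 : ℝ) < s := by exact_mod_cast hs1
  have hN0 : (0 : ℝ) < N := by exact_mod_cast hN
  have up : ∑ a ∈ Ioc 0 s, ((N / a : ℕ) : ℝ) ≤ N * ∑ i ∈ Ioc 0 s, (1 : ℝ) / i := by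
    rw [mul_sum]
    refine sum_le_sum fun a _ => ?_
    rw [mul_one_div]
    exact Nat.cast_div_le
  have lo : N * ∑ i ∈ Ioc 0 s, (1 : ℝ) / i - s ≤ ∑ a ∈ Ioc 0 s, ((N / a : ℕ) : ℝ) := by
    have : (s : ℝ) = ∑ a ∈ Ioc 0 s, (1 : ℝ) := by simp
    rw [mul_sum, this, ← sum_sub_distrib]
    refine sum_le_sum fun a ha => ?_
    rw [mem_Ioc] at ha
    rw [mul_one_div]
    have h3 := Nat.lt_div_mul_add (a := N) (b := a) ha.1
    have h4 : (N : ℝ) < ((N / a : ℕ) : ℝ) * a + a := by exact_mod_cast h3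
    have ha0 : (0 : ℝ) < a := by exact_mod_cast ha.1
    rw [sub_le_iff_le_add, div_le_iff₀ ha0]
    nlinarith
  obtain ⟨k1, k2⟩ := harm s hs1
  set H := ∑ i ∈ Ioc 0 s, (1 : ℝ) / i with hH
  set γ := Real.eulerMascheroniConstant with hγ
  have hsq : (s : ℝ) ≤ √(N : ℝ) := by
    apply Real.le_sqrt_of_sq_le
    rw [sq]; exact_mod_cast h1
  have hsq2 : √(N : ℝ) ≤ s + 1 := by
    rw [Real.sqrt_le_left (by positivity), sq]
    exact_mod_cast h2.le
  have hsq3 : √(N : ℝ) ≤ 2 * s := by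
    have : (1 : ℝ) ≤ s := by exact_mod_cast hs1
    linarith
  have hlog1 : Real.log s ≤ Real.log N / 2 := by
    rw [← Real.log_sqrt hN0.le]
    exact Real.log_le_log hs0 hsq
  have hlog2 : Real.log N / 2 - Real.log s ≤ 1 / s := by
    rw [← Real.log_sqrt hN0.le, ← Real.log_div (by positivity) hs0.ne']
    have h5 := Real.log_le_sub_one_of_pos (x := √(N : ℝ) / s) (by positivity)
    refine h5.trans ?_
    rw [sub_le_iff_le_add, div_le_iff₀ hs0, add_mul, one_div, inv_mul_cancel₀ hs0.ne']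
    linarith
  have hNs : N * (1 / (s : ℝ)) ≤ 2 * √(N : ℝ) := by
    rw [mul_one_div, div_le_iff₀ hs0]
    nlinarith [Real.mul_self_sqrt hN0.le, Real.sqrt_nonneg (N : ℝ)]
  have hsN : (N : ℝ) - s * s ≤ 2 * s := by
    have : N ≤ s * s + 2 * s := by nlinarith
    have : (N : ℝ) ≤ s * s + 2 * s := by exact_mod_cast this
    linarith
  have hsN' : (s : ℝ) * s ≤ N := by exact_mod_cast h1
  have m1 : N * (H - Real.log s - γ) ≤ 2 * √(N : ℝ) :=
    (mul_le_mul_of_nonneg_left k2 hN0.le).trans hNs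
  have m2 : 0 ≤ N * (H - Real.log s - γ) := mul_nonneg hN0.le k1
  have m3 : N * (Real.log N / 2 - Real.log s) ≤ 2 * √(N : ℝ) :=
    (mul_le_mul_of_nonneg_left hlog2 hN0.le).trans hNs
  have m4 : 0 ≤ N * (Real.log N / 2 - Real.log s) := mul_nonneg hN0.le (by linarith)
  rw [abs_le]
  constructor <;> nlinarith

/-- the function `log - d + 2γ` -/
noncomputable def ff : ArithmeticFunction ℝ :=
  ArithmeticFunction.log - ((zeta : ArithmeticFunction ℕ) : ArithmeticFunction ℝ) *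
      ((zeta : ArithmeticFunction ℕ) : ArithmeticFunction ℝ) +
    (2 * Real.eulerMascheroniConstant) • ((zeta : ArithmeticFunction ℕ) : ArithmeticFunction ℝ)

theorem fsum (N : ℕ) (hN : 1 ≤ N) : |∑ n ∈ Ioc 0 N, ff n| ≤ 11 * √(N : ℝ) := by
  unfold ff
  have e : ∑ n ∈ Ioc 0 N, (ArithmeticFunction.log -
      ((zeta : ArithmeticFunction ℕ) : ArithmeticFunction ℝ) *
      ((zeta : ArithmeticFunction ℕ) : ArithmeticFunction ℝ) +
    (2 * Real.eulerMascheroniConstant) • ((zeta : ArithmeticFunction ℕ) : ArithmeticFunction ℝ)) n =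
      ∑ n ∈ Ioc 0 N, Real.log n - ∑ n ∈ Ioc 0 N, (((zeta : ArithmeticFunction ℕ) : ArithmeticFunction ℝ) *
      ((zeta : ArithmeticFunction ℕ) : ArithmeticFunction ℝ)) n + 2 * Real.eulerMascheroniConstant * N := by
    rw [← zsum N, mul_sum, ← sum_sub_distrib, ← sum_add_distrib]
    refine sum_congr rfl fun n _ => ?_
    rw [ArithmeticFunction.add_apply, subap, smul_map, ArithmeticFunction.log_apply, smul_eq_mul]
  rw [e]
  have h1 := logfact N hN
  have h2 := dsum N hN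
  have hN0 : (0 : ℝ) < N := by exact_mod_cast hN
  have h3 : Real.log N ≤ 2 * √(N : ℝ) := by
    have h5 := Real.log_le_sub_one_of_pos (x := √(N : ℝ)) (by positivity)
    rw [Real.log_sqrt hN0.le] at h5
    linarith
  have h4 : 1 ≤ √(N : ℝ) := by
    rw [Real.one_le_sqrt]; exact_mod_cast hN
  rw [abs_le] at *
  constructor <;> nlinarith [h1.1, h1.2, h2.1, h2.2]

theorem ff_abs (b : ℕ) (hb : 1 ≤ b) : |ff b| ≤ 4 * b := by
  unfold ff
  have hb0 : (0 : ℝ) < b := by exact_mod_cast hb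
  have e : (ArithmeticFunction.log -
      ((zeta : ArithmeticFunction ℕ) : ArithmeticFunction ℝ) *
      ((zeta : ArithmeticFunction ℕ) : ArithmeticFunction ℝ) +
    (2 * Real.eulerMascheroniConstant) • ((zeta : ArithmeticFunction ℕ) : ArithmeticFunction ℝ)) b =
     Real.log b - (b.divisors.card : ℝ) + 2 * Real.eulerMascheroniConstant := by
    have h1 : (((zeta : ArithmeticFunction ℕ) : ArithmeticFunction ℝ) *
      ((zeta : ArithmeticFunction ℕ) : ArithmeticFunction ℝ)) b = (b.divisors.card : ℝ) := by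
      rw [← natCoe_mul, natCoe_apply]
      nth_rewrite 2 [← pow_zero_eq_zeta]
      rw [zeta_mul_pow_eq_sigma, sigma_zero_apply]
    rw [ArithmeticFunction.add_apply, subap, smul_map, ArithmeticFunction.log_apply, smul_eq_mul, h1, natCoe_apply,
      zeta_apply, if_neg (by omega)]
    simp
  rw [e]
  have h1 : Real.log b ≤ b := (Real.log_le_sub_one_of_pos hb0).trans (by linarith)
  have h2 : 0 ≤ Real.log b := Real.log_natCast_nonneg b
  have h3 : (b.divisors.card : ℝ) ≤ b := by exact_mod_cast Nat.card_divisors_le_self b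
  have h4 := Real.one_half_lt_eulerMascheroniConstant
  have h5 := Real.eulerMascheroniConstant_lt_two_thirds
  have h6 : (1 : ℝ) ≤ b := by exact_mod_cast hb
  have h7 : (0 : ℝ) ≤ (b.divisors.card : ℝ) := by positivity
  rw [abs_le]
  constructor <;> linarith

theorem conv : ((moebius : ArithmeticFunction ℤ) : ArithmeticFunction ℝ) * ff =
    vonMangoldt - ((zeta : ArithmeticFunction ℕ) : ArithmeticFunction ℝ) +
      (2 * Real.eulerMascheroniConstant) • (1 : ArithmeticFunction ℝ) := by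
  unfold ff
  rw [mul_add, mul_sub, moebius_mul_log_eq_vonMangoldt, ← mul_assoc, coe_moebius_mul_coe_zeta, one_mul,
    mul_smul_comm, coe_moebius_mul_coe_zeta]

theorem psi_eq (m : ℕ) : Chebyshev.psi (m : ℝ) = ∑ d ∈ Ioc 0 m, vonMangoldt d := by
  simp [Chebyshev.psi]

theorem mertM : ∃ N₀ : ℕ, ∀ m : ℕ, N₀ ≤ m + 1 →
    |∑ n ∈ Ioc 0 m, ((moebius : ArithmeticFunction ℤ) : ArithmeticFunction ℝ) n| ≤
      ((m : ℝ) + 1) / (Real.log ((m : ℝ) + 1)) ^ 3 := by
  obtain ⟨N₀, h⟩ := Pool.Agent.H705R2.MSW.swMu 3 0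
  refine ⟨N₀, fun m hm => ?_⟩
  have h1 := h (m + 1) hm 1 0 le_rfl (by simp)
  have e : ∑ n ∈ (range (m + 1)).filter (fun n => n % 1 = 0), ((moebius n : ℤ) : ℝ) =
      ∑ n ∈ Ioc 0 m, ((moebius : ArithmeticFunction ℤ) : ArithmeticFunction ℝ) n := by
    rw [filter_true_of_mem (fun n _ => Nat.mod_one n)]
    rw [sum_range_succ']
    simp only [intCoe_apply]
    have : Ioc 0 m = (range m).image (fun n => n + 1) := by
      ext i
      simp only [mem_Ioc, mem_image, mem_range]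
      constructor
      · intro hi; exact ⟨i - 1, by omega, by omega⟩
      · rintro ⟨j, hj, rfl⟩; omega
    rw [this, sum_image (fun a _ b _ hab => by simpa using hab)]
    simp
  rw [e] at h1
  push_cast at h1
  exact h1

theorem growth (N₀ : ℕ) : ∃ N₁ : ℕ, ∀ N : ℕ, N₁ ≤ N → 2 ≤ Real.log N ∧
    2 * (Real.log N) ^ 2 ≤ √(N : ℝ) ∧ (N₀ : ℝ) ≤ √(N : ℝ) ∧ 3 ≤ N := by
  have t1 : Filter.Tendsto (fun N : ℕ => Real.log (N : ℝ)) Filter.atTop Filter.atTop :=
    Real.tendsto_log_atTop.comp tendsto_natCast_atTop_atTop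
  have t2 : Filter.Tendsto (fun N : ℕ => √(N : ℝ)) Filter.atTop Filter.atTop :=
    Real.tendsto_sqrt_atTop.comp tendsto_natCast_atTop_atTop
  have t3 : ∀ᶠ x : ℝ in Filter.atTop, 2 * (Real.log x) ^ 2 ≤ √x := by
    have := (isLittleO_log_rpow_atTop (r := 1 / 4) (by norm_num)).bound (c := 1 / 2) (by norm_num)
    filter_upwards [this, Filter.eventually_ge_atTop (1 : ℝ)] with x hx hx1
    have hl : 0 ≤ Real.log x := Real.log_nonneg hx1
    rw [Real.norm_of_nonneg hl, Real.norm_of_nonneg (by positivity)] at hx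
    have h2 : (Real.log x) ^ 2 ≤ (1 / 2 * x ^ (1 / 4 : ℝ)) ^ 2 := by gcongr
    have h3 : (x ^ (1 / 4 : ℝ)) ^ 2 = √x := by
      rw [← Real.rpow_natCast, ← Real.rpow_mul (by linarith), Real.sqrt_eq_rpow]
      norm_num
    rw [mul_pow, h3] at h2
    have := Real.sqrt_nonneg x
    linarith
  have t4 := tendsto_natCast_atTop_atTop (R := ℝ) |>.eventually t3
  have := ((t1.eventually_ge_atTop 2).and (t4.and ((t2.eventually_ge_atTop (N₀ : ℝ)).and
    (Filter.eventually_ge_atTop 3)))).exists_forall_of_atTop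
  obtain ⟨N₁, h⟩ := this
  exact ⟨N₁, fun N hN => ⟨(h N hN).1, (h N hN).2.1, (h N hN).2.2.1, (h N hN).2.2.2⟩⟩

theorem sum_inv_sqrt (A : ℕ) : ∑ a ∈ Ioc 0 A, 1 / √(a : ℝ) ≤ 2 * √(A : ℝ) := by
  induction A with
  | zero => simp
  | succ n ih =>
    rw [sum_Ioc_succ_top (by omega)]
    have h1 : 0 < √(((n + 1 : ℕ)) : ℝ) := by positivity
    have h2 : 0 ≤ √(n : ℝ) := by positivity
    have h3 := Real.mul_self_sqrt (show (0 : ℝ) ≤ ((n + 1 : ℕ) : ℝ) by positivity)
    have h4 := Real.mul_self_sqrt (show (0 : ℝ) ≤ (n : ℝ) by positivity)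
    have h5 : 1 / √(((n + 1 : ℕ)) : ℝ) ≤ 2 * √(((n + 1 : ℕ)) : ℝ) - 2 * √(n : ℝ) := by
      rw [div_le_iff₀ h1]
      push_cast at h3 ⊢
      nlinarith [sq_nonneg (√((n : ℝ) + 1) - √(n : ℝ))]
    linarith

theorem moeb_abs (n : ℕ) : |((moebius : ArithmeticFunction ℤ) : ArithmeticFunction ℝ) n| ≤ 1 := by
  rw [intCoe_apply]
  exact_mod_cast abs_moebius_le_one

theorem large : ∃ N₁ : ℕ, ∀ N : ℕ, N₁ ≤ N → |Chebyshev.psi (N : ℝ) - N| ≤ 163 * (N / Real.log N) := by
  obtain ⟨N₀, hM⟩ := mertM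
  obtain ⟨N₁, hg⟩ := growth N₀
  refine ⟨N₁, fun N hN => ?_⟩
  obtain ⟨g1, g2, g3, g4⟩ := hg N hN
  set L := Real.log N with hL
  have hN0 : (0 : ℝ) < N := by exact_mod_cast (by omega : 0 < N)
  have hsN : 0 < √(N : ℝ) := by positivity
  have hss := Real.mul_self_sqrt hN0.le
  set B := ⌈L ^ 2⌉₊ with hB
  have hB1 : L ^ 2 ≤ B := Nat.le_ceil _
  have hB2 : (B : ℝ) ≤ 2 * L ^ 2 := by
    have := Nat.ceil_lt_add_one (show 0 ≤ L ^ 2 by positivity)
    nlinarith
  have hB0 : (0 : ℝ) < B := by nlinarith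
  have hBn : 0 < B := by exact_mod_cast hB0
  have hBs : (B : ℝ) ≤ √(N : ℝ) := hB2.trans g2
  set A := N / B with hA
  have hA1 : (A : ℝ) ≤ N / B := Nat.cast_div_le
  have e1 : A * B ≤ N := Nat.div_mul_le_self N B
  have e2 : N < (A + 1) * (B + 1) := by
    have := Nat.lt_div_mul_add (a := N) (b := B) hBn
    nlinarith
  have hyp := hyperbola (((moebius : ArithmeticFunction ℤ) : ArithmeticFunction ℝ)) ff N A B e1 e2
  have hLHS : ∑ n ∈ Ioc 0 N, (((moebius : ArithmeticFunction ℤ) : ArithmeticFunction ℝ) * ff) n =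
      Chebyshev.psi (N : ℝ) - N + 2 * Real.eulerMascheroniConstant := by
    have h0 : ∑ n ∈ Ioc 0 N, (((moebius : ArithmeticFunction ℤ) : ArithmeticFunction ℝ) * ff) n =
        ∑ n ∈ Ioc 0 N, vonMangoldt n -
        ∑ n ∈ Ioc 0 N, ((zeta : ArithmeticFunction ℕ) : ArithmeticFunction ℝ) n +
        ∑ n ∈ Ioc 0 N, (2 * Real.eulerMascheroniConstant) * (1 : ArithmeticFunction ℝ) n := by
      rw [conv, ← sum_sub_distrib, ← sum_add_distrib]
      rfl
    have h1 : ∑ n ∈ Ioc 0 N, (1 : ArithmeticFunction ℝ) n = 1 := by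
      rw [sum_eq_single 1]
      · simp
      · intro b _ hb
        rw [one_apply_ne hb]
      · intro h
        exfalso; apply h; rw [mem_Ioc]; omega
    rw [h0, psi_eq, zsum, ← mul_sum, h1, mul_one]
  rw [hLHS] at hyp
  -- the three pieces
  have p1 : |∑ a ∈ Ioc 0 A, ((moebius : ArithmeticFunction ℤ) : ArithmeticFunction ℝ) a *
      ∑ b ∈ Ioc 0 (N / a), ff b| ≤ 22 * (N / L) := by
    calc _ ≤ ∑ a ∈ Ioc 0 A, |((moebius : ArithmeticFunction ℤ) : ArithmeticFunction ℝ) a *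
          ∑ b ∈ Ioc 0 (N / a), ff b| := abs_sum_le_sum_abs _ _
      _ ≤ ∑ a ∈ Ioc 0 A, 11 * √(N : ℝ) * (1 / √(a : ℝ)) := by
          refine sum_le_sum fun a ha => ?_
          rw [mem_Ioc] at ha
          have haN : a ≤ N := ha.2.trans (Nat.div_le_self _ _)
          have h1 : 1 ≤ N / a := by
            rw [Nat.le_div_iff_mul_le ha.1]; omega
          rw [abs_mul]
          calc _ ≤ 1 * (11 * √((N / a : ℕ) : ℝ)) :=
                mul_le_mul (moeb_abs a) (fsum _ h1) (abs_nonneg _) zero_le_one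
            _ ≤ 1 * (11 * √((N : ℝ) / a)) := by
                gcongr
                exact Nat.cast_div_le
            _ = _ := by
                rw [Real.sqrt_div hN0.le]; ring
      _ = 11 * √(N : ℝ) * ∑ a ∈ Ioc 0 A, 1 / √(a : ℝ) := by rw [mul_sum]
      _ ≤ 11 * √(N : ℝ) * (2 * √(A : ℝ)) := by
          gcongr; exact sum_inv_sqrt A
      _ ≤ 11 * √(N : ℝ) * (2 * (√(N : ℝ) / L)) := by
          gcongr
          rw [← Real.sqrt_sq (show (0 : ℝ) ≤ L by linarith), ← Real.sqrt_div hN0.le]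
          apply Real.sqrt_le_sqrt
          refine hA1.trans ?_
          gcongr
      _ = 22 * ((√(N : ℝ) * √(N : ℝ)) / L) := by ring
      _ = _ := by rw [hss]
  have p2 : |∑ b ∈ Ioc 0 B, ff b * ∑ a ∈ Ioc 0 (N / b),
      ((moebius : ArithmeticFunction ℤ) : ArithmeticFunction ℝ) a| ≤ 128 * (N / L) := by
    calc _ ≤ ∑ b ∈ Ioc 0 B, |ff b * ∑ a ∈ Ioc 0 (N / b),
          ((moebius : ArithmeticFunction ℤ) : ArithmeticFunction ℝ) a| := abs_sum_le_sum_abs _ _
      _ ≤ ∑ b ∈ Ioc 0 B, 64 * N / L ^ 3 := by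
          refine sum_le_sum fun b hb => ?_
          rw [mem_Ioc] at hb
          have hb0 : (0 : ℝ) < b := by exact_mod_cast hb.1
          have hbB : (b : ℝ) ≤ √(N : ℝ) := le_trans (by exact_mod_cast hb.2) hBs
          have h3 : (N : ℝ) / b ≤ ((N / b : ℕ) : ℝ) + 1 := by
            rw [div_le_iff₀ hb0]
            have := Nat.lt_div_mul_add (a := N) (b := b) hb.1
            have h4 : (N : ℝ) < ((N / b : ℕ) : ℝ) * b + b := by exact_mod_cast this
            linarith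
          have h4 : √(N : ℝ) ≤ (N : ℝ) / b := by
            rw [le_div_iff₀ hb0]
            calc √(N : ℝ) * b ≤ √(N : ℝ) * √(N : ℝ) := by gcongr
              _ = N := hss
          have h5 : N₀ ≤ N / b + 1 := by
            have : (N₀ : ℝ) ≤ ((N / b : ℕ) : ℝ) + 1 := g3.trans (h4.trans h3)
            exact_mod_cast this
          have h6 := hM (N / b) h5
          have h7 : L / 2 ≤ Real.log (((N / b : ℕ) : ℝ) + 1) := by
            rw [hL, ← Real.log_sqrt hN0.le]
            exact Real.log_le_log hsN (h4.trans h3)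
          have h8 : ((N / b : ℕ) : ℝ) + 1 ≤ 2 * (N / b) := by
            have h9 : ((N / b : ℕ) : ℝ) ≤ N / b := Nat.cast_div_le
            have h10 : (1 : ℝ) ≤ N / b := by
              rw [le_div_iff₀ hb0, one_mul]
              refine hbB.trans ?_
              rw [Real.sqrt_le_left hN0.le]
              have : (1 : ℝ) ≤ N := by exact_mod_cast (by omega : 1 ≤ N)
              nlinarith
            linarith
          rw [abs_mul]
          calc _ ≤ (4 * b) * ((2 * (N / b)) / (L / 2) ^ 3) := by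
                refine mul_le_mul (ff_abs b hb.1) (h6.trans ?_) (abs_nonneg _) (by positivity)
                have : 0 < L / 2 := by linarith
                gcongr
            _ = 64 * N / L ^ 3 := by
                have : L ≠ 0 := by linarith
                field_simp
                norm_num
      _ = B * (64 * N / L ^ 3) := by simp
      _ ≤ (2 * L ^ 2) * (64 * N / L ^ 3) := by
          have : 0 < L := by linarith
          gcongr
      _ = _ := by
          have : L ≠ 0 := by linarith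
          field_simp
          norm_num
  have p3 : |(∑ a ∈ Ioc 0 A, ((moebius : ArithmeticFunction ℤ) : ArithmeticFunction ℝ) a) *
      ∑ b ∈ Ioc 0 B, ff b| ≤ 11 * (N / L) := by
    rw [abs_mul]
    have h1 : |∑ a ∈ Ioc 0 A, ((moebius : ArithmeticFunction ℤ) : ArithmeticFunction ℝ) a| ≤ A := by
      refine (abs_sum_le_sum_abs _ _).trans ?_
      refine (sum_le_sum fun a _ => moeb_abs a).trans ?_
      simp
    have hL0 : 0 < L := by linarith
    have hsB : 0 < √(B : ℝ) := by positivity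
    have hsB2 : L ≤ √(B : ℝ) := Real.le_sqrt_of_sq_le hB1
    calc _ ≤ (N / B) * (11 * √(B : ℝ)) :=
          mul_le_mul (h1.trans hA1) (fsum B hBn) (abs_nonneg _) (by positivity)
      _ = 11 * (N / √(B : ℝ)) := by
          have := Real.mul_self_sqrt hB0.le
          field_simp
          nlinarith
      _ ≤ _ := by gcongr
  have hγ1 := Real.one_half_lt_eulerMascheroniConstant
  have hγ2 := Real.eulerMascheroniConstant_lt_two_thirds
  have hNL : 1 ≤ N / L := by
    rw [le_div_iff₀ (by linarith), one_mul]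
    exact (Real.log_le_sub_one_of_pos hN0).trans (by linarith)
  rw [abs_le] at *
  constructor <;> linarith [p1.1, p1.2, p2.1, p2.2, p3.1, p3.2]

end A1aux

/-- A1: strong PNT for psi. -/
theorem A1 : ∃ C : ℝ, 0 < C ∧ ∀ N : ℕ, 2 ≤ N →
    |Chebyshev.psi (N : ℝ) - N| ≤ C * (N / Real.log N) := by
  obtain ⟨N₁, h⟩ := A1aux.large
  have hp : 0 ≤ Chebyshev.psi (N₁ : ℝ) := Chebyshev.psi_nonneg _
  refine ⟨163 + (Chebyshev.psi (N₁ : ℝ) + N₁), by positivity, fun N hN => ?_⟩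
  have hN0 : (0 : ℝ) < N := by exact_mod_cast (by omega : 0 < N)
  have hL : 0 < Real.log N := Real.log_pos (by exact_mod_cast (by omega : 1 < N))
  have hNL : 1 ≤ N / Real.log N := by
    rw [le_div_iff₀ hL, one_mul]
    exact (Real.log_le_sub_one_of_pos hN0).trans (by linarith)
  rcases le_or_gt N₁ N with h1 | h1
  · refine (h N h1).trans ?_
    gcongr
    have : (0 : ℝ) ≤ N₁ := by positivity
    linarith
  · have h2 : Chebyshev.psi (N : ℝ) ≤ Chebyshev.psi (N₁ : ℝ) :=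
      Chebyshev.psi_mono (by exact_mod_cast h1.le)
    have h3 : (N : ℝ) ≤ N₁ := by exact_mod_cast h1.le
    have h4 : 0 ≤ Chebyshev.psi (N : ℝ) := Chebyshev.psi_nonneg _
    calc |Chebyshev.psi (N : ℝ) - N| ≤ Chebyshev.psi (N₁ : ℝ) + N₁ := by
          rw [abs_le]; constructor <;> linarith
      _ ≤ (163 + (Chebyshev.psi (N₁ : ℝ) + N₁)) * 1 := by linarith
      _ ≤ _ := by gcongr

end Pool.Agent.H381R2.HR
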